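import Pool.Agent.Results.MP_2a5a28_nt.RationalCurves
import Pool.Agent.Helper8.CD.Pair
import Pool.Graph.R_pool_sql_team_seeded_2aa45f1a.Results.MP_2a5a28_nt.EqualNorms

/-!
# What the classical abc conjecture says about all triples of integers of `ℚ(√5)`

For a triple `a + b + c = 0` in lowest terms over `ℤ[(1 + √5) / 2]` let `m` be the rational integer
with `a b̄ - ā b = m √5`; up to the sign it does not depend on the order of the triple, and `m = 0`
if and only if the triple is proportional to a rational one. The classical abc conjecture is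
equivalent to the inequality `H ≤ C (max (1, |m|) rad) ^ (1 + ε)` for all triples.

The proof applies the abc inequality for triples with two members of the same norm (`EqualNorms` in
the library: it is equivalent to the classical abc conjecture) to the relations
`a b̄ + (-ā b) + (ā b - a b̄) = 0` after division by the greatest common divisor, for the three pairs.
-/

set_option autoImplicit false
set_option maxHeartbeats 1000000

namespace Pool.Agent.Results.MP_2a5a28_nt.ConjugateDeterminant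

open NumberField IsDedekindDomain Module Polynomial
open Pool.Agent.Results.MP_2a5a28_nt.RationalCurves (Triple height rad Abc AbcP OnCurve vecK)
open Pool.Agent.N251.GA (radK radZ)
open Pool.Agent.Helper8.CD

variable {K : Type} [Field K] [NumberField K]

/-- `a b̄ - ā b = m √5`, where `τ` is the conjugation and `r = √5` -/
def Det (τ : 𝓞 K ≃+* 𝓞 K) (r : 𝓞 K) (t : 𝓞 K × 𝓞 K × 𝓞 K) (m : ℤ) : Prop :=
  t.1 * τ t.2.1 - τ t.1 * t.2.1 = m * r

/-- the product of the primes dividing `m` -/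
noncomputable def radInt (m : ℤ) : ℝ := ∏ p ∈ m.natAbs.primeFactors, (p : ℝ)

lemma conv (K : Type) [Field K] [NumberField K] (Q : 𝓞 K × 𝓞 K × 𝓞 K → Prop) :
    EqualNorms.Abc K Q ↔ Abc K Q := by
  constructor
  · intro h ε hε
    obtain ⟨C, hC⟩ := h ε hε
    exact ⟨C, fun t ht hq => hC t ⟨ht.sum, ht.ne, ht.cop⟩ hq⟩
  · intro h ε hε
    obtain ⟨C, hC⟩ := h ε hε
    exact ⟨C, fun t ht hq => hC t ⟨ht.sum, ht.ne, ht.cop⟩ hq⟩

lemma norm_neg' (hK : finrank ℚ K = 2) (y : 𝓞 K) : Algebra.norm ℤ (-y) = Algebra.norm ℤ y := by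
  have h : finrank ℤ (𝓞 K) = 2 := by rw [RingOfIntegers.rank, hK]
  have h1 : Algebra.norm ℤ (-1 : 𝓞 K) = 1 := by
    have := Algebra.norm_algebraMap (S := 𝓞 K) (-1 : ℤ)
    rw [h] at this
    rw [map_neg, map_one] at this
    rw [this]
    norm_num
  rw [← neg_one_mul, map_mul, h1, one_mul]

lemma normAbc (hK : finrank ℚ K = 2)
    (h : Abc K (fun t => Algebra.norm ℤ t.1 = Algebra.norm ℤ t.2.1)) : NormAbc K := by
  intro ε hε
  obtain ⟨C, hC⟩ := h ε hε
  refine ⟨C, fun x y hcop hx hy hxy hN => ?_⟩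
  have hsum : x + -y + (y - x) = 0 := by ring
  have ht : Triple ((x, -y, y - x) : 𝓞 K × 𝓞 K × 𝓞 K) := by
    refine ⟨hsum, ?_, ?_⟩
    · exact mul_ne_zero (mul_ne_zero hx (neg_ne_zero.2 hy)) (sub_ne_zero.2 (Ne.symm hxy))
    · exact (Pool.Agent.Helper8.CD.cop_iff hsum).2 hcop.neg_right
  have a := hC _ ht (by
    show Algebra.norm ℤ x = Algebra.norm ℤ (-y)
    rw [norm_neg' hK, hN])
  have e1 : rad ((x, -y, y - x) : 𝓞 K × 𝓞 K × 𝓞 K) = radK (x * y * (x - y)) := by
    show radK (x * -y * (y - x)) = _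
    congr 1
    ring
  rw [e1] at a
  refine le_trans ?_ a
  unfold height
  refine Finset.prod_le_prod (fun χ _ => le_max_of_le_left (norm_nonneg _)) fun χ _ => ?_
  apply max_le
  · exact le_max_left _ _
  · have e2 : ‖χ ((-y : 𝓞 K) : K)‖ = ‖χ (y : K)‖ := by
      push_cast
      rw [map_neg, norm_neg]
    calc ‖χ (y : K)‖ = ‖χ ((-y : 𝓞 K) : K)‖ := e2.symm
      _ ≤ max ‖χ ((-y : 𝓞 K) : K)‖ ‖χ ((y - x : 𝓞 K) : K)‖ := le_max_left _ _
      _ ≤ _ := le_max_right _ _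

lemma tau_tau (hK : finrank ℚ K = 2) {r : 𝓞 K} (hr : r ^ 2 = 5) (τ : 𝓞 K ≃+* 𝓞 K)
    (hτ : (τ : 𝓞 K →+* 𝓞 K) ≠ RingHom.id (𝓞 K)) (x : 𝓞 K) : τ (τ x) = x := by
  obtain ⟨u, v, hu, -⟩ := Pool.Agent.N564.GASymK.exists_xy hK hr (τ : 𝓞 K →+* 𝓞 K) hτ x
  have h3 : x + τ x = (u : 𝓞 K) := hu
  have h4 := congrArg τ h3
  rw [map_add, map_intCast] at h4
  linear_combination h4 - h3

lemma mul3_rpow {u v w p : ℝ} (hu : 0 ≤ u) (hv : 0 ≤ v) (hw : 0 ≤ w) :
    (u * v * w) ^ p = u ^ p * v ^ p * w ^ p := by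
  rw [Real.mul_rpow (mul_nonneg hu hv) hw, Real.mul_rpow hu hv]

/-- the inequalities for all triples -/
lemma forward [IsPrincipalIdealRing (𝓞 K)] (hK : finrank ℚ K = 2) {r : 𝓞 K} (hr : r ^ 2 = 5)
    (τ : 𝓞 K ≃+* 𝓞 K) (hτ : (τ : 𝓞 K →+* 𝓞 K) ≠ RingHom.id (𝓞 K)) (h : NormAbc K) :
    ∀ ε : ℝ, 0 < ε → ∃ C : ℝ, 0 ≤ C ∧ ∀ (t : 𝓞 K × 𝓞 K × 𝓞 K) (m : ℤ), Triple t → Det τ r t m →
      m ≠ 0 → (height t ≤ C * (|(m : ℝ)| * rad t) ^ (1 + ε) ∧
        |(Algebra.norm ℤ (t.1 * t.2.1 * t.2.2) : ℝ)| ≤ C * (|(m : ℝ)| ^ 3 * rad t ^ 2) ^ (1 + ε)) ∧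
      (IsCoprime t.1 (τ t.1) → IsCoprime t.2.1 (τ t.2.1) → IsCoprime t.2.2 (τ t.2.2) →
        height t ≤ C * (radInt m * rad t) ^ (1 + ε) ∧
        |(Algebra.norm ℤ (t.1 * t.2.1 * t.2.2) : ℝ)| ≤
          C * (radInt m ^ 3 * rad t ^ 2) ^ (1 + ε)) := by
  intro ε hε
  obtain ⟨φ, ψ, h1, h2, h3⟩ := prod_two hK hr τ hτ
  obtain ⟨C, hC1, hC⟩ := pair_m h hK hr τ h1 h2 h3 ε hε
  have hC0 : 0 ≤ C := by linarith
  refine ⟨2 * C + C ^ 3, by positivity, ?_⟩
  rintro ⟨a, b, c⟩ m ⟨hsum, hne, hcop⟩ hdet hm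
  simp only at hsum hne hcop
  have hdet' : a * τ b - τ a * b = m * r := hdet
  have ha : a ≠ 0 := left_ne_zero_of_mul (left_ne_zero_of_mul hne)
  have hb : b ≠ 0 := right_ne_zero_of_mul (left_ne_zero_of_mul hne)
  have hc : c ≠ 0 := right_ne_zero_of_mul hne
  have ec : c = -(a + b) := by linear_combination hsum
  have d2 : b * τ c - τ b * c = m * r := by
    rw [ec, map_neg, map_add]
    linear_combination hdet'
  have d3 : c * τ a - τ c * a = m * r := by
    rw [ec, map_neg, map_add]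
    linear_combination hdet'
  -- coprimality
  have cab : IsCoprime a b := (Pool.Agent.Helper8.CD.cop_iff hsum).1 hcop
  have cbc : IsCoprime b c := by
    rw [ec, IsCoprime.neg_right_iff]
    have h4 : IsCoprime b (a + b * 1) := cab.symm.add_mul_left_right 1
    rwa [mul_one] at h4
  have cca : IsCoprime c a := by
    rw [ec, IsCoprime.neg_left_iff]
    have h4 : IsCoprime (b + a * 1) a := cab.symm.add_mul_left_left 1
    rw [mul_one, add_comm] at h4
    exact h4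
  -- the radicals
  have hR : rad ((a, b, c) : 𝓞 K × 𝓞 K × 𝓞 K) = radK (a * b * c) := rfl
  rw [hR]
  obtain ⟨R, hRe⟩ : ∃ R : ℝ, R = radK (a * b * c) := ⟨_, rfl⟩
  rw [← hRe]
  have hR1 : 1 ≤ R := by rw [hRe]; exact radK_one_le _
  have mono : ∀ x y z : 𝓞 K, x * y * z = a * b * c → radK (x * y) ≤ R := by
    intro x y z hxyz
    rw [hRe]
    refine Pool.Agent.N186.GANF.radK_mono _ _ 1 hne ?_
    rw [pow_one]
    exact ⟨z, hxyz.symm⟩
  have rab : radK (a * b) ≤ R := mono a b c rfl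
  have rbc : radK (b * c) ≤ R := mono b c a (by ring)
  have rca : radK (c * a) ≤ R := mono c a b (by ring)
  have n1 : ∀ x : 𝓞 K, 0 ≤ radK x := fun x => zero_le_one.trans (radK_one_le x)
  have rprod : radK (a * b) * radK (b * c) * radK (c * a) ≤ R ^ 2 := by
    have e1 := Pool.Agent.N186.GANF.radK_mul_le a b ha hb
    have e2 := Pool.Agent.N186.GANF.radK_mul_le b c hb hc
    have e3 := Pool.Agent.N186.GANF.radK_mul_le c a hc ha
    have e4 : radK a * radK b * radK c ≤ R := by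
      rw [hRe]
      have f1 := radK_mul_cop ha hb cab
      have f2 := radK_mul_cop (mul_ne_zero ha hb) hc (IsCoprime.mul_left cca.symm cbc)
      exact le_trans (mul_le_mul_of_nonneg_right f1 (n1 c)) f2
    have na := n1 a
    have nb := n1 b
    have nc := n1 c
    calc radK (a * b) * radK (b * c) * radK (c * a)
        ≤ (radK a * radK b) * (radK b * radK c) * (radK c * radK a) := by
          refine mul_le_mul (mul_le_mul e1 e2 (n1 _) (by positivity)) e3 (n1 _) (by positivity)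
      _ = (radK a * radK b * radK c) ^ 2 := by ring
      _ ≤ R ^ 2 := pow_le_pow_left₀ (by positivity) e4 2
  -- the sizes
  have tri : ∀ χ : K →+* ℂ, ‖χ (a : K)‖ ≤ ‖χ (b : K)‖ + ‖χ (c : K)‖ ∧
      ‖χ (b : K)‖ ≤ ‖χ (c : K)‖ + ‖χ (a : K)‖ ∧ ‖χ (c : K)‖ ≤ ‖χ (a : K)‖ + ‖χ (b : K)‖ := by
    intro χ
    have e : χ (a : K) + χ (b : K) + χ (c : K) = 0 := by
      have := congrArg (fun z : 𝓞 K => χ (z : K)) hsum
      simp only [map_add, map_zero] at this
      exact this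
    refine ⟨?_, ?_, ?_⟩
    · have e1 : χ (a : K) = -(χ (b : K) + χ (c : K)) := by linear_combination e
      rw [e1, norm_neg]
      exact norm_add_le _ _
    · have e1 : χ (b : K) = -(χ (c : K) + χ (a : K)) := by linear_combination e
      rw [e1, norm_neg]
      exact norm_add_le _ _
    · have e1 : χ (c : K) = -(χ (a : K) + χ (b : K)) := by linear_combination e
      rw [e1, norm_neg]
      exact norm_add_le _ _
  have hnorm : |(Algebra.norm ℤ (a * b * c) : ℝ)| =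
      (‖φ (a : K)‖ * ‖ψ (b : K)‖) * (‖φ (b : K)‖ * ‖ψ (c : K)‖) *
        (‖φ (c : K)‖ * ‖ψ (a : K)‖) := by
    have e := Pool.Agent.N186.GANF.prod_eq (a * b * c)
    rw [Nat.cast_natAbs, Int.cast_abs] at e
    rw [← e, h3]
    simp only [map_mul, norm_mul]
    ring
  have main : ∀ Y : ℝ, 0 ≤ Y → MM φ ψ a b ≤ C * (radK (a * b) * Y) ^ (1 + ε) →
      MM φ ψ b c ≤ C * (radK (b * c) * Y) ^ (1 + ε) →
      MM φ ψ c a ≤ C * (radK (c * a) * Y) ^ (1 + ε) →
      height ((a, b, c) : 𝓞 K × 𝓞 K × 𝓞 K) ≤ (2 * C + C ^ 3) * (Y * R) ^ (1 + ε) ∧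
      |(Algebra.norm ℤ (a * b * c) : ℝ)| ≤ (2 * C + C ^ 3) * (Y ^ 3 * R ^ 2) ^ (1 + ε) := by
    intro Y hY q1 q2 q3
    have up : ∀ x : ℝ, 0 ≤ x → x ≤ R → C * (x * Y) ^ (1 + ε) ≤ C * (Y * R) ^ (1 + ε) := by
      intro x hx0 hx
      refine mul_le_mul_of_nonneg_left ?_ hC0
      refine Real.rpow_le_rpow (by positivity) ?_ (by linarith)
      rw [mul_comm Y R]
      exact mul_le_mul_of_nonneg_right hx hY
    have p0 : 0 ≤ (Y * R) ^ (1 + ε) := Real.rpow_nonneg (by positivity) _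
    have p1 : 0 ≤ (Y ^ 3 * R ^ 2) ^ (1 + ε) := Real.rpow_nonneg (by positivity) _
    constructor
    · have w1 := q1.trans (up _ (n1 _) rab)
      have w2 := q2.trans (up _ (n1 _) rbc)
      have w3 := q3.trans (up _ (n1 _) rca)
      unfold MM at w1 w2 w3
      rw [max_le_iff] at w1 w2 w3
      obtain ⟨tb1, tb2, tb3⟩ := tri ψ
      have w := height_le (norm_nonneg (φ (a : K))) (norm_nonneg (φ (b : K)))
        (norm_nonneg (φ (c : K))) (norm_nonneg (ψ (a : K))) (norm_nonneg (ψ (b : K)))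
        (norm_nonneg (ψ (c : K))) tb1 tb2 tb3 w1.1 w1.2 w2.1 w2.2 w3.1 w3.2
      unfold height
      rw [h3]
      refine w.trans ?_
      have : 0 ≤ C ^ 3 * (Y * R) ^ (1 + ε) := by positivity
      linarith
    · rw [hnorm]
      have w1 : ‖φ (a : K)‖ * ‖ψ (b : K)‖ ≤ C * (radK (a * b) * Y) ^ (1 + ε) :=
        (le_max_left _ _).trans q1
      have w2 : ‖φ (b : K)‖ * ‖ψ (c : K)‖ ≤ C * (radK (b * c) * Y) ^ (1 + ε) :=
        (le_max_left _ _).trans q2
      have w3 : ‖φ (c : K)‖ * ‖ψ (a : K)‖ ≤ C * (radK (c * a) * Y) ^ (1 + ε) :=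
        (le_max_left _ _).trans q3
      have r1 := n1 (a * b)
      have r2 := n1 (b * c)
      have r3 := n1 (c * a)
      have z1 : 0 ≤ (radK (a * b) * Y) ^ (1 + ε) := Real.rpow_nonneg (by positivity) _
      have z2 : 0 ≤ (radK (b * c) * Y) ^ (1 + ε) := Real.rpow_nonneg (by positivity) _
      have z3 : 0 ≤ (radK (c * a) * Y) ^ (1 + ε) := Real.rpow_nonneg (by positivity) _
      calc (‖φ (a : K)‖ * ‖ψ (b : K)‖) * (‖φ (b : K)‖ * ‖ψ (c : K)‖) *
            (‖φ (c : K)‖ * ‖ψ (a : K)‖)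
          ≤ (C * (radK (a * b) * Y) ^ (1 + ε)) * (C * (radK (b * c) * Y) ^ (1 + ε)) *
            (C * (radK (c * a) * Y) ^ (1 + ε)) := by
            refine mul_le_mul (mul_le_mul w1 w2 (by positivity) (by positivity)) w3
              (by positivity) (by positivity)
        _ = C ^ 3 * ((Y ^ 3 * (radK (a * b) * radK (b * c) * radK (c * a))) ^ (1 + ε)) := by
            have e : Y ^ 3 * (radK (a * b) * radK (b * c) * radK (c * a)) =
                (radK (a * b) * Y) * (radK (b * c) * Y) * (radK (c * a) * Y) := by ring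
            rw [e, mul3_rpow (by positivity) (by positivity) (by positivity)]
            ring
        _ ≤ C ^ 3 * (Y ^ 3 * R ^ 2) ^ (1 + ε) := by
            refine mul_le_mul_of_nonneg_left ?_ (by positivity)
            refine Real.rpow_le_rpow (by positivity) ?_ (by linarith)
            exact mul_le_mul_of_nonneg_left rprod (by positivity)
        _ ≤ (2 * C + C ^ 3) * (Y ^ 3 * R ^ 2) ^ (1 + ε) := by
            refine mul_le_mul_of_nonneg_right ?_ p1
            linarith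
  obtain ⟨u1, v1⟩ := hC a b m ha hb hm hdet'
  obtain ⟨u2, v2⟩ := hC b c m hb hc hm d2
  obtain ⟨u3, v3⟩ := hC c a m hc ha hm d3
  constructor
  · exact main |(m : ℝ)| (abs_nonneg _) u1 u2 u3
  · intro ka kb kc
    have hZ : radInt m = radZ m := rfl
    rw [hZ]
    have hZ0 : 0 ≤ radZ m := by
      unfold radZ
      positivity
    have cc : ∀ x y : 𝓞 K, IsCoprime x y → IsCoprime x (τ x) → IsCoprime y (τ y) →
        IsCoprime (x * τ y) (τ x * y) := by
      intro x y k1 k2 k3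
      have k4 : IsCoprime (τ y) (τ x) := k1.symm.map (τ : 𝓞 K →+* 𝓞 K)
      exact IsCoprime.mul_left (IsCoprime.mul_right k2 k1) (IsCoprime.mul_right k4 k3.symm)
    exact main (radZ m) hZ0 (v1 (cc a b cab ka kb)) (v2 (cc b c cbc kb kc)) (v3 (cc c a cca kc ka))

/-- a triple with a rational ratio has `m = 0` -/
lemma det_zero (τ : 𝓞 K ≃+* 𝓞 K) (r : 𝓞 K) {t : 𝓞 K × 𝓞 K × 𝓞 K}
    (h : OnCurve ℚ (X : K[X]) 1 (vecK t)) : Det τ r t 0 := by
  obtain ⟨s, hs⟩ := h
  rw [eval_one, eval_X, mul_one] at hs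
  have h1 : (t.1 : K) = (t.2.1 : K) * algebraMap ℚ K s := hs
  have hden : ((s.den : ℤ) : 𝓞 K) ≠ 0 := by exact_mod_cast s.den_ne_zero
  have h2 : ((s.den : ℤ) : 𝓞 K) * t.1 = ((s.num : ℤ) : 𝓞 K) * t.2.1 := by
    apply RingOfIntegers.coe_injective
    rw [map_mul, map_mul, map_intCast, map_intCast]
    have h3 : algebraMap ℚ K s * ((s.den : ℤ) : K) = ((s.num : ℤ) : K) := by
      have := congrArg (algebraMap ℚ K) (Rat.mul_den_eq_num s)
      rw [map_mul, map_natCast, map_intCast] at this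
      exact_mod_cast this
    show ((s.den : ℤ) : K) * (t.1 : K) = ((s.num : ℤ) : K) * (t.2.1 : K)
    rw [h1, ← h3]
    ring
  have h4 := congrArg τ h2
  rw [map_mul, map_mul, map_intCast, map_intCast] at h4
  unfold Det
  rw [Int.cast_zero, zero_mul]
  apply mul_left_cancel₀ hden
  rw [mul_zero]
  linear_combination τ t.2.1 * h2 - t.2.1 * h4

/-- `K = ℚ(√5)`, `r = √5`, `τ` the conjugation. For the triples `t = (a, b, c)` in lowest terms and
the integers `m` with `a b̄ - ā b = m √5`: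

(1) such an `m` exists for all `a`, `b`;
(2) the classical abc conjecture is equivalent to `H ≤ C (max (1, |m|) rad) ^ (1 + ε)` for all
triples;
(3) it implies `|N(abc)| ≤ C (|m| ^ 3 rad ^ 2) ^ (1 + ε)` if `m ≠ 0`, and both inequalities hold with
the radical of `m` in place of `|m|` if each of `a`, `b`, `c` is coprime to its conjugate. -/
theorem result (K : Type) [Field K] [NumberField K] (hK : finrank ℚ K = 2) (r : 𝓞 K)
    (hr : r ^ 2 = 5) (τ : 𝓞 K ≃+* 𝓞 K) (hτ : τ ≠ RingEquiv.refl (𝓞 K)) :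
    (∀ t : 𝓞 K × 𝓞 K × 𝓞 K, ∃ m : ℤ, Det τ r t m) ∧
    (Abc ℚ (fun _ => True) ↔
      ∀ ε : ℝ, 0 < ε → ∃ C : ℝ, ∀ (t : 𝓞 K × 𝓞 K × 𝓞 K) (m : ℤ), Triple t → Det τ r t m →
        height t ≤ C * (max 1 |(m : ℝ)| * rad t) ^ (1 + ε)) ∧
    (Abc ℚ (fun _ => True) →
      ∀ ε : ℝ, 0 < ε → ∃ C : ℝ, ∀ (t : 𝓞 K × 𝓞 K × 𝓞 K) (m : ℤ), Triple t → Det τ r t m →
        m ≠ 0 →
        |(Algebra.norm ℤ (t.1 * t.2.1 * t.2.2) : ℝ)| ≤ C * (|(m : ℝ)| ^ 3 * rad t ^ 2) ^ (1 + ε) ∧
        (IsCoprime t.1 (τ t.1) → IsCoprime t.2.1 (τ t.2.1) → IsCoprime t.2.2 (τ t.2.2) →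
          height t ≤ C * (radInt m * rad t) ^ (1 + ε) ∧
          |(Algebra.norm ℤ (t.1 * t.2.1 * t.2.2) : ℝ)| ≤
            C * (radInt m ^ 3 * rad t ^ 2) ^ (1 + ε))) := by
  have hτ' : (τ : 𝓞 K →+* 𝓞 K) ≠ RingHom.id (𝓞 K) := by
    intro h
    apply hτ
    ext x
    have := congrArg (fun f : 𝓞 K →+* 𝓞 K => f x) h
    simpa using this
  have hs : ∃ s : K, s ^ 2 = 5 := by
    refine ⟨(r : K), ?_⟩
    have := congrArg (algebraMap (𝓞 K) K) hr
    rwa [map_pow, map_ofNat] at this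
  obtain ⟨s, hs5⟩ := hs
  have hpid : IsPrincipalIdealRing (𝓞 K) := Pool.Agent.Y382.Gold.pid hK hs5
  have hpidQ : IsPrincipalIdealRing (𝓞 ℚ) :=
    IsPrincipalIdealRing.of_surjective (Rat.ringOfIntegersEquiv.symm : ℤ →+* 𝓞 ℚ)
      Rat.ringOfIntegersEquiv.symm.surjective
  have hN : Abc ℚ (fun _ => True) → NormAbc K := by
    intro h
    apply normAbc hK
    rw [← conv]
    exact (EqualNorms.result.1 K hK ⟨s, hs5⟩).2 ((conv ℚ _).2 h)
  refine ⟨?_, ⟨?_, ?_⟩, ?_⟩
  · intro t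
    obtain ⟨u, v, -, hv⟩ := Pool.Agent.N564.GASymK.exists_xy hK hr (τ : 𝓞 K →+* 𝓞 K) hτ'
      (t.1 * τ t.2.1)
    refine ⟨v, ?_⟩
    have hv' : t.1 * τ t.2.1 - τ (t.1 * τ t.2.1) = v * r := hv
    rw [map_mul, tau_tau hK hr τ hτ'] at hv'
    exact hv'
  · intro h ε hε
    obtain ⟨C0, hC00, hC0⟩ := forward hK hr τ hτ' (hN h) ε hε
    obtain ⟨C1, hC1⟩ := (((RationalCurves.result.1 K hK ⟨s, hs5⟩).1.1 h) X 1
      isCoprime_one_right (by
        unfold RationalCurves.deg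
        rw [natDegree_X]
        exact le_max_left _ _)) ε hε
    refine ⟨C0 + |C1|, fun t m ht hdet => ?_⟩
    have hR1 : 1 ≤ rad t := radK_one_le _
    have hR0 : 0 ≤ rad t := by linarith
    by_cases hm : m = 0
    · -- the rational triples
      subst hm
      have hcurve : OnCurve ℚ (X : K[X]) 1 (vecK t) := by
        have hb : t.2.1 ≠ 0 := right_ne_zero_of_mul (left_ne_zero_of_mul ht.ne)
        have hbK : (t.2.1 : K) ≠ 0 := fun h3 => hb (RingOfIntegers.coe_eq_zero_iff.1 h3)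
        have hτb : τ t.2.1 ≠ 0 := fun h => hb (τ.injective (by rw [h, map_zero]))
        obtain ⟨x, y, hx, hy⟩ := Pool.Agent.N564.GASymK.exists_xy hK hr (τ : 𝓞 K →+* 𝓞 K) hτ'
          (t.1 * τ t.2.1)
        obtain ⟨x', y', hx', hy'⟩ := Pool.Agent.N564.GASymK.exists_xy hK hr
          (τ : 𝓞 K →+* 𝓞 K) hτ' (t.2.1 * τ t.2.1)
        have g1 : t.1 * τ t.2.1 + τ (t.1 * τ t.2.1) = x := hx
        have g2 : t.2.1 * τ t.2.1 + τ (t.2.1 * τ t.2.1) = x' := hx'
        rw [map_mul, tau_tau hK hr τ hτ'] at g1 g2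
        have hdet' : t.1 * τ t.2.1 - τ t.1 * t.2.1 = 0 := by
          have : t.1 * τ t.2.1 - τ t.1 * t.2.1 = ((0 : ℤ) : 𝓞 K) * r := hdet
          rwa [Int.cast_zero, zero_mul] at this
        have g3 : 2 * (t.1 * τ t.2.1) = (x : 𝓞 K) := by linear_combination g1 + hdet'
        have g4 : 2 * (t.2.1 * τ t.2.1) = (x' : 𝓞 K) := by linear_combination g2
        have hx'0 : (x' : 𝓞 K) ≠ 0 := by
          rw [← g4]
          exact mul_ne_zero two_ne_zero (mul_ne_zero hb hτb)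
        have hx'Z : x' ≠ 0 := by
          rintro rfl
          exact hx'0 (by simp)
        have g5 : (x' : 𝓞 K) * t.1 = x * t.2.1 := by
          rw [← g3, ← g4]
          ring
        refine ⟨(x : ℚ) / x', ?_⟩
        rw [eval_one, eval_X, mul_one]
        show (t.1 : K) = (t.2.1 : K) * algebraMap ℚ K ((x : ℚ) / x')
        have hx'K : (x' : K) ≠ 0 := by exact_mod_cast hx'Z
        rw [map_div₀, map_intCast, map_intCast]
        have g6 := congrArg (algebraMap (𝓞 K) K) g5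
        rw [map_mul, map_mul, map_intCast, map_intCast] at g6
        have g7 : (x' : K) * (t.1 : K) = (x : K) * (t.2.1 : K) := g6
        field_simp
        linear_combination g7
      have a := hC1 t ht hcurve
      have hp : 0 ≤ rad t ^ (1 + ε) := Real.rpow_nonneg hR0 _
      rw [Int.cast_zero, abs_zero, max_eq_left zero_le_one, one_mul]
      refine a.trans (mul_le_mul_of_nonneg_right ?_ hp)
      have := le_abs_self C1
      linarith
    · have a := ((hC0 t m ht hdet hm).1).1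
      have hp : 0 ≤ (max 1 |(m : ℝ)| * rad t) ^ (1 + ε) :=
        Real.rpow_nonneg (mul_nonneg (le_max_of_le_left zero_le_one) hR0) _
      have hp2 : (|(m : ℝ)| * rad t) ^ (1 + ε) ≤ (max 1 |(m : ℝ)| * rad t) ^ (1 + ε) := by
        refine Real.rpow_le_rpow (by positivity) ?_ (by linarith)
        exact mul_le_mul_of_nonneg_right (le_max_right _ _) hR0
      calc height t ≤ C0 * (|(m : ℝ)| * rad t) ^ (1 + ε) := a
        _ ≤ C0 * (max 1 |(m : ℝ)| * rad t) ^ (1 + ε) := mul_le_mul_of_nonneg_left hp2 hC00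
        _ ≤ (C0 + |C1|) * (max 1 |(m : ℝ)| * rad t) ^ (1 + ε) := by
            refine mul_le_mul_of_nonneg_right ?_ hp
            have := abs_nonneg C1
            linarith
  · intro h
    have h1 : Abc K (fun t => OnCurve ℚ (X : K[X]) 1 (vecK t)) := by
      intro ε hε
      obtain ⟨C, hC⟩ := h ε hε
      refine ⟨C, fun t ht hcurve => ?_⟩
      have a := hC t 0 ht (det_zero τ r hcurve)
      rwa [Int.cast_zero, abs_zero, max_eq_left zero_le_one, one_mul] at a
    have h2 : AbcP K (OnCurve ℚ (X : K[X]) 1) := by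
      rw [← RationalCurves.expP_one]
      refine (RationalCurves.pid_exp K 1 _ _ (fun _ => Iff.rfl) ?_).1
        ((RationalCurves.exp_one K _).2 h1)
      rintro x c _ ⟨q, hq⟩
      refine ⟨q, ?_⟩
      simp only [Pi.smul_apply, smul_eq_mul]
      linear_combination c * hq
    have h3 : AbcP ℚ (fun _ => True) := RationalCurves.converse ℚ K h2
    rw [← RationalCurves.expP_one] at h3
    exact (RationalCurves.exp_one ℚ _).1 ((RationalCurves.pid_exp ℚ 1 _ _ (fun _ => Iff.rfl)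
      (fun _ _ _ _ => trivial)).2 h3)
  · intro h ε hε
    obtain ⟨C0, -, hC0⟩ := forward hK hr τ hτ' (hN h) ε hε
    exact ⟨C0, fun t m ht hdet hm => ⟨((hC0 t m ht hdet hm).1).2, (hC0 t m ht hdet hm).2⟩⟩

end Pool.Agent.Results.MP_2a5a28_nt.ConjugateDeterminant
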