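import Pool.Agent.Helper45.AB.Main

/-!
# The exceptional set in the abc conjecture over `ℤ[(1 + √5) / 2]`: exponent `8 / 15`

Up to units, the coprime triples `a + b + c = 0` of integers of `ℚ(√5)` with `abc ≠ 0`, height
`H ≤ X` and radical at most `κ H` number `O(X ^ (8 / 15 + ε))`. The same holds over the integers of
every number field `K`, in particular over `ℤ`, where `H = max (|a|, |b|, |c|)`.

The proof adds to the four known kinds of bounds (geometry of numbers after extraction of roots,
energies of product sets, differences) a new one, an energy bound off the diagonal: if two different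
members `u ^ k v ^ l w` and `u' ^ k v' ^ l w'` are congruent modulo a large divisor of another
member of the triple, then `k` times the size of the reduced pair `(u, u')` plus `l` times the size
of the reduced pair `(v, v')` is large, and this forces the sizes to be unequal, which saves a power
in the two-variable energy. A certificate with 3945 leaves shows that one of the bounds is always
good enough.

Written with helpers 32 (modules `Off`, `Cso`, `Chk`), 40 (`Sao`, `Est2`), 66 (`Size`, `Ofq`) and
35 (`Finq`, `Fin2`).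
-/

set_option autoImplicit false

namespace Pool.Agent.Results.MP_2a5a28_nt.ExceptionalSetEightFifteenths

open NumberField IsDedekindDomain

variable {K : Type} [Field K] [NumberField K]

/-- the triples in lowest terms with `a + b + c = 0` and `abc ≠ 0` -/
structure Triple (t : 𝓞 K × 𝓞 K × 𝓞 K) : Prop where
  sum : t.1 + t.2.1 + t.2.2 = 0
  ne : t.1 * t.2.1 * t.2.2 ≠ 0
  cop : Ideal.span {t.1, t.2.1, t.2.2} = (⊤ : Ideal (𝓞 K))

/-- the height `H(a, b, c)`: the product over the field embeddings `φ : K → ℂ` (two real ones when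
`K = ℚ(√5)`) of `max (|φ a|, |φ b|, |φ c|)` -/
noncomputable def height (t : 𝓞 K × 𝓞 K × 𝓞 K) : ℝ :=
  ∏ φ : K →+* ℂ, max ‖φ t.1‖ (max ‖φ t.2.1‖ ‖φ t.2.2‖)

/-- the radical: the product of the norms of the prime ideals dividing `abc` -/
noncomputable def rad (t : 𝓞 K × 𝓞 K × 𝓞 K) : ℝ :=
  ∏ᶠ (P : HeightOneSpectrum (𝓞 K)) (_ : t.1 * t.2.1 * t.2.2 ∈ P.asIdeal),
    (Ideal.absNorm P.asIdeal : ℝ)

/-- Let `K` be a number field, for instance `ℚ(√5)`, and `𝓞 K` its ring of integers, for instance
`ℤ[(1 + √5) / 2]`. For all `κ` and `ε > 0` there is `C` such that, for `X ≥ 1`, any set of triples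
`a + b + c = 0` in lowest terms, no two of them differing by a unit, with height `H ≤ X` and
`rad ≤ κ H`, has at most `C X ^ (8 / 15 + ε)` elements. -/
theorem result : ∀ (K : Type) [Field K] [NumberField K],
    ∀ κ ε : ℝ, 0 < ε → ∃ C : ℝ, ∀ X : ℝ, 1 ≤ X →
      ∀ E : Finset (𝓞 K × 𝓞 K × 𝓞 K),
        (∀ t ∈ E, Triple t ∧ height t ≤ X ∧ rad t ≤ κ * height t) →
        (∀ t ∈ E, ∀ s ∈ E, ∀ u : (𝓞 K)ˣ, s = (u * t.1, u * t.2.1, u * t.2.2) → s = t) →
        (E.card : ℝ) ≤ C * X ^ (8 / 15 + ε : ℝ) := by
  intro K _ _ κ ε hε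
  obtain ⟨C, hC⟩ := Pool.Agent.Helper45.AB.finq_gen (Pool.Agent.Helper45.AB.main2 K) κ ε hε
  exact ⟨C, fun X hX E hE hun => hC X hX E (fun t ht =>
    ⟨⟨(hE t ht).1.sum, (hE t ht).1.ne, (hE t ht).1.cop⟩, (hE t ht).2.1, (hE t ht).2.2⟩) hun⟩

end Pool.Agent.Results.MP_2a5a28_nt.ExceptionalSetEightFifteenths
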