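import Pool.Agent.Helper8.RC.Bridge
import Pool.Graph.R_seed8.Y382.Gold

/-!
# The abc inequality over `ℤ[(1 + √5) / 2]` on all rational curves

The plane `a + b + c = 0` gives the projective line over `K = ℚ(√5)`. Its points over `K` are the
rational points of a surface over `ℚ` (the restriction of scalars of the line). A rational curve on
this surface is given by a rational function over `K`, whose argument is restricted to `ℚ`: it
consists of the triples with `a : b = P(s) : Q(s)`, `s` in `ℚ`, where `P` and `Q` are coprime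
polynomials over `K`. The inequality of Q1 on all these curves is equivalent to the classical abc
conjecture, and the classical abc conjecture gives `H ^ ((q - 2) / D) ≤ C rad ^ (1 + ε)`, where `D`
is the degree of the map and `q ≥ D + 2` the number of the points with `a b c = 0` of the curve. The
same holds for all extensions `K / F` of number fields.

The proof takes a Belyi polynomial with rational coefficients for the `q` points, restricts the
result to `F`, and removes the superfluous zeros, as over `ℚ` (Elkies, Langevin). The number of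
points is bounded from below with the Wronskian.
-/

set_option autoImplicit false
set_option maxHeartbeats 1000000

namespace Pool.Agent.Results.MP_2a5a28_nt.RationalCurves

open NumberField IsDedekindDomain Module Polynomial

variable {K : Type} [Field K] [NumberField K]

/-- the triples in lowest terms with `a + b + c = 0` and `abc ≠ 0` -/
structure Triple (t : 𝓞 K × 𝓞 K × 𝓞 K) : Prop where
  sum : t.1 + t.2.1 + t.2.2 = 0
  ne : t.1 * t.2.1 * t.2.2 ≠ 0
  cop : Ideal.span {t.1, t.2.1, t.2.2} = (⊤ : Ideal (𝓞 K))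

/-- the height `H(a, b, c)`: the product over the field embeddings `φ : K → ℂ` (two real ones when
`K = ℚ(√5)`, one when `K = ℚ`) of `max (|φ a|, |φ b|, |φ c|)` -/
noncomputable def height (t : 𝓞 K × 𝓞 K × 𝓞 K) : ℝ :=
  ∏ φ : K →+* ℂ, max ‖φ t.1‖ (max ‖φ t.2.1‖ ‖φ t.2.2‖)

/-- the radical: the product of the norms of the prime ideals dividing `abc` -/
noncomputable def rad (t : 𝓞 K × 𝓞 K × 𝓞 K) : ℝ :=
  ∏ᶠ (P : HeightOneSpectrum (𝓞 K)) (_ : t.1 * t.2.1 * t.2.2 ∈ P.asIdeal),
    (Ideal.absNorm P.asIdeal : ℝ)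

/-- the abc inequality over the integers of `K`, for the triples in `T` -/
def Abc (K : Type) [Field K] [NumberField K] (T : 𝓞 K × 𝓞 K × 𝓞 K → Prop) : Prop :=
  ∀ ε : ℝ, 0 < ε → ∃ C : ℝ, ∀ t : 𝓞 K × 𝓞 K × 𝓞 K, Triple t → T t →
    height t ≤ C * rad t ^ (1 + ε)

/-- the same with `H ^ e` in place of `H` -/
def AbcExp (K : Type) [Field K] [NumberField K] (e : ℝ) (T : 𝓞 K × 𝓞 K × 𝓞 K → Prop) : Prop :=
  ∀ ε : ℝ, 0 < ε → ∃ C : ℝ, ∀ t : 𝓞 K × 𝓞 K × 𝓞 K, Triple t → T t →
    height t ^ e ≤ C * rad t ^ (1 + ε)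

/-- the height of a vector in `K³`, relative to `K`: the product of the maxima of `|x i|` over all
places -/
noncomputable def heightP (x : Fin 3 → K) : ℝ := Height.mulHeight x

/-- the radical of a vector in `K³`: the product of the norms of the prime ideals at which the
three coordinates do not have the same absolute value -/
noncomputable def radP (x : Fin 3 → K) : ℝ :=
  ∏ᶠ (v : FinitePlace K) (_ : ∃ i j, v (x i) ≠ v (x j)),
    (Ideal.absNorm v.maximalIdeal.asIdeal : ℝ)

/-- the abc inequality over `K` for all vectors `x` in `T` (no coprimality; any number field) -/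
def AbcP (K : Type) [Field K] [NumberField K] (T : (Fin 3 → K) → Prop) : Prop :=
  ∀ ε : ℝ, 0 < ε → ∃ C : ℝ, ∀ x : Fin 3 → K, T x → x 0 + x 1 + x 2 = 0 → (∀ i, x i ≠ 0) →
    heightP x ≤ C * radP x ^ (1 + ε)

/-- the same with `H ^ e` in place of `H` -/
def AbcPExp (K : Type) [Field K] [NumberField K] (e : ℝ) (T : (Fin 3 → K) → Prop) : Prop :=
  ∀ ε : ℝ, 0 < ε → ∃ C : ℝ, ∀ x : Fin 3 → K, T x → x 0 + x 1 + x 2 = 0 → (∀ i, x i ≠ 0) →
    heightP x ^ e ≤ C * radP x ^ (1 + ε)

/-- the vector of a triple, over `K` -/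
def vecK (t : 𝓞 K × 𝓞 K × 𝓞 K) : Fin 3 → K := fun i => algebraMap (𝓞 K) K (![t.1, t.2.1, t.2.2] i)

/-- the rational curve given by `P` and `Q`: the vectors `x` with `x 0 : x 1 = P(s) : Q(s)` for
some `s` in the smaller field `F` -/
def OnCurve (F : Type) [Field F] [Algebra F K] (P Q : K[X]) (x : Fin 3 → K) : Prop :=
  ∃ s : F, x 0 * Q.eval (algebraMap F K s) = x 1 * P.eval (algebraMap F K s)

/-- the degree of the map `(P : Q)`, for coprime `P` and `Q` -/
def deg (P Q : K[X]) : ℕ := max P.natDegree Q.natDegree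

open Classical in
/-- the number of the points of the projective line at which `P Q (P + Q)` is zero: the distinct
zeros (the degree of the squarefree part), and the point at infinity unless `P`, `Q`, `P + Q` have
the same degree -/
noncomputable def points (P Q : K[X]) : ℕ :=
  (UniqueFactorizationMonoid.radical (P * Q * (P + Q))).natDegree +
    if P.natDegree = Q.natDegree ∧ (P + Q).natDegree = P.natDegree then 0 else 1

lemma fp_lt (v : FinitePlace K) (a : 𝓞 K) : v (a : K) < 1 ↔ a ∈ v.maximalIdeal.asIdeal := by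
  rw [← FinitePlace.mk_maximalIdeal v, FinitePlace.maximalIdeal_mk, FinitePlace.mk_apply]
  exact FinitePlace.norm_lt_one_iff_mem K _ a

lemma fp_le (v : FinitePlace K) (a : 𝓞 K) : v (a : K) ≤ 1 := by
  rw [← FinitePlace.mk_maximalIdeal v, FinitePlace.mk_apply]
  exact FinitePlace.norm_le_one K _ a

lemma mem_iff {t : 𝓞 K × 𝓞 K × 𝓞 K} (h : Triple t) (v : FinitePlace K) :
    t.1 * t.2.1 * t.2.2 ∈ v.maximalIdeal.asIdeal ↔
      ∃ i j, v (vecK t i) ≠ v (vecK t j) := by
  have hpr := v.maximalIdeal.isPrime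
  constructor
  · intro hm
    by_contra hcon
    push Not at hcon
    have h1 : ∃ i, ![t.1, t.2.1, t.2.2] i ∈ v.maximalIdeal.asIdeal := by
      rcases hpr.mem_or_mem hm with h3 | h3
      · rcases hpr.mem_or_mem h3 with h4 | h4
        · exact ⟨0, h4⟩
        · exact ⟨1, h4⟩
      · exact ⟨2, h3⟩
    obtain ⟨i, hi⟩ := h1
    have h3 : ∀ j, ![t.1, t.2.1, t.2.2] j ∈ v.maximalIdeal.asIdeal := by
      intro j
      rw [← fp_lt] at hi ⊢
      have := hcon i j
      unfold vecK at this
      rwa [← this]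
    apply hpr.ne_top
    rw [eq_top_iff, ← h.cop, Ideal.span_le]
    rintro x (rfl | rfl | rfl)
    · exact h3 0
    · exact h3 1
    · exact h3 2
  · rintro ⟨i, j, hij⟩
    by_contra hn
    have h1 : ∀ i, v (vecK t i) = 1 := by
      intro i
      apply le_antisymm (fp_le v _)
      by_contra hlt
      push Not at hlt
      have hi := (fp_lt v _).mp hlt
      apply hn
      fin_cases i
      · exact Ideal.mul_mem_right _ _ (Ideal.mul_mem_right _ _ hi)
      · exact Ideal.mul_mem_right _ _ (Ideal.mul_mem_left _ _ hi)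
      · exact Ideal.mul_mem_left _ _ hi
    exact hij (by rw [h1, h1])

lemma rad_vec {t : 𝓞 K × 𝓞 K × 𝓞 K} (h : Triple t) : radP (vecK t) = rad t := by
  unfold radP rad
  rw [← finprod_comp_equiv (FinitePlace.equivHeightOneSpectrum (K := K))]
  refine finprod_congr fun v => ?_
  rw [FinitePlace.equivHeightOneSpectrum_apply]
  exact finprod_congr_Prop (propext (mem_iff h v).symm) fun _ => rfl

theorem sup3 (f : Fin 3 → ℝ) : ⨆ i, f i = max (f 0) (max (f 1) (f 2)) := by
  apply le_antisymm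
  · refine ciSup_le fun i => ?_
    fin_cases i
    · exact le_max_left _ _
    · exact (le_max_left _ _).trans (le_max_right _ _)
    · exact (le_max_right _ _).trans (le_max_right _ _)
  · have h : ∀ i, f i ≤ ⨆ i, f i := fun i => le_ciSup (Set.finite_range f).bddAbove i
    exact max_le (h 0) (max_le (h 1) (h 2))

/-- taken from `Pool.Agent.Results.MP_2a5a28_nt.AllThinSetsAtOnce` -/
theorem height_vec {t : 𝓞 K × 𝓞 K × 𝓞 K} (h : Triple t) : heightP (vecK t) = height t := by
  classical
  have h1 : t.1 ≠ 0 := fun h3 => h.ne (by rw [h3]; ring)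
  have hv : (![t.1, t.2.1, t.2.2] : Fin 3 → 𝓞 K) ≠ 0 := fun h3 => h1 (congrFun h3 0)
  have hvK : vecK t ≠ 0 := by
    intro h3
    have h4 : algebraMap (𝓞 K) K t.1 = 0 := congrFun h3 0
    exact h1 (RingOfIntegers.coe_eq_zero_iff.1 h4)
  unfold heightP
  rw [NumberField.mulHeight_eq hvK]
  have hfin : ∏ᶠ v : FinitePlace K, ⨆ i, v (vecK t i) = 1 := by
    have h2 := NumberField.absNorm_mul_finprod_finitePlace_eq_one (K := K) hv
    have h3 : Ideal.span (Set.range (![t.1, t.2.1, t.2.2] : Fin 3 → 𝓞 K)) = ⊤ := by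
      rw [← h.cop]
      congr 1
      ext x
      simp only [Set.mem_range, Fin.exists_fin_succ, Set.mem_insert_iff,
        Set.mem_singleton_iff]
      simp [eq_comm]
    rw [h3, Ideal.absNorm_top, Nat.cast_one, one_mul] at h2
    exact h2
  rw [hfin, mul_one]
  unfold height
  have e : ∀ φ : K →+* ℂ, max ‖φ t.1‖ (max ‖φ t.2.1‖ ‖φ t.2.2‖) =
      (fun w : InfinitePlace K => ⨆ i, w (vecK t i)) (InfinitePlace.mk φ) := by
    intro φ
    simp only
    rw [sup3]
    simp only [InfinitePlace.apply]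
    rfl
  rw [Finset.prod_congr rfl fun φ _ => e φ,
    ← Finset.prod_fiberwise (s := Finset.univ) (g := InfinitePlace.mk)]
  refine Finset.prod_congr rfl fun w _ => ?_
  rw [Finset.prod_congr rfl (g := fun _ => ⨆ i, w (vecK t i)) (by
    intro φ hφ
    rw [Finset.mem_filter] at hφ
    simp only [hφ.2]), Finset.prod_const]
  congr 1
  exact (InfinitePlace.card_filter_mk_eq w).symm

lemma exists_triple [IsPrincipalIdealRing (𝓞 K)] {y : Fin 3 → K}
    (hy : ∀ i, y i ≠ 0) (hsum : y 0 + y 1 + y 2 = 0) :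
    ∃ t : 𝓞 K × 𝓞 K × 𝓞 K, Triple t ∧ ∃ s : K, s ≠ 0 ∧ vecK t = s • y := by
  obtain ⟨a, b, hb, hab, he⟩ : ∃ a b : 𝓞 K, b ≠ 0 ∧ IsCoprime a b ∧ y 0 / y 1 = (a : K) / b := by
    obtain ⟨a, b, h1, h2⟩ := IsFractionRing.exists_reduced_fraction (A := 𝓞 K) (y 0 / y 1)
    refine ⟨a, b, nonZeroDivisors.coe_ne_zero b, isRelPrime_iff_isCoprime.1 h1, ?_⟩
    rw [← h2, IsFractionRing.mk'_eq_div]
  have hbK : (b : K) ≠ 0 := fun h3 => hb (RingOfIntegers.coe_eq_zero_iff.1 h3)
  have hy0 := hy 0
  have hy1 := hy 1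
  have hy2 := hy 2
  have ha : (a : K) = b / y 1 * y 0 := by
    field_simp at he ⊢
    linear_combination -he
  have hs : (b : K) / y 1 ≠ 0 := div_ne_zero hbK hy1
  have hb' : (b : K) = b / y 1 * y 1 := by field_simp
  have hc' : ((-(a + b) : 𝓞 K) : K) = b / y 1 * y 2 := by
    have e : y 2 = -(y 0 + y 1) := by linear_combination hsum
    have e3 : ((-(a + b) : 𝓞 K) : K) = -((a : K) + (b : K)) := by
      show algebraMap (𝓞 K) K (-(a + b)) = -(algebraMap (𝓞 K) K a + algebraMap (𝓞 K) K b)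
      rw [map_neg, map_add]
    rw [e3, e]
    linear_combination -ha - hb'
  have hne : ∀ (c : 𝓞 K) (i : Fin 3), (c : K) = b / y 1 * y i → c ≠ 0 := by
    intro c i hc h0
    rw [h0] at hc
    have h1 : (b : K) / y 1 * y i = 0 := by
      rw [← hc]
      simp
    exact mul_ne_zero hs (hy i) h1
  refine ⟨(a, b, -(a + b)), ⟨by ring, ?_, ?_⟩, (b : K) / y 1, hs, ?_⟩
  · exact mul_ne_zero (mul_ne_zero (hne a 0 ha) hb) (hne _ 2 hc')
  · rw [Ideal.eq_top_iff_one]
    obtain ⟨u, v, huv⟩ := hab
    rw [← huv]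
    refine Ideal.add_mem _ (Ideal.mul_mem_left _ _ (Ideal.subset_span ?_))
      (Ideal.mul_mem_left _ _ (Ideal.subset_span ?_))
    · exact Set.mem_insert _ _
    · exact Set.mem_insert_of_mem _ (Set.mem_insert _ _)
  · funext i
    fin_cases i
    · exact ha
    · exact hb'
    · exact hc'

lemma radP_smul {s : K} (hs : s ≠ 0) (x : Fin 3 → K) : radP (s • x) = radP x := by
  unfold radP
  refine finprod_congr fun v => ?_
  refine finprod_congr_Prop (propext ?_) fun _ => rfl
  have h0 : v s ≠ 0 := (v.1.pos hs).ne'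
  simp only [Pi.smul_apply, smul_eq_mul, map_mul]
  constructor
  · rintro ⟨i, j, hij⟩
    exact ⟨i, j, fun h => hij (by rw [h])⟩
  · rintro ⟨i, j, hij⟩
    exact ⟨i, j, fun h => hij (mul_left_cancel₀ h0 h)⟩

/-- over a principal ideal domain the two forms are equivalent -/
lemma pid_exp (K : Type) [Field K] [NumberField K] [IsPrincipalIdealRing (𝓞 K)] (e : ℝ)
    (P : (Fin 3 → K) → Prop) (Q : 𝓞 K × 𝓞 K × 𝓞 K → Prop) (hQ : ∀ t, Q t ↔ P (vecK t))
    (hP : ∀ (x : Fin 3 → K) (s : K), s ≠ 0 → P x → P (s • x)) :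
    AbcExp K e Q ↔ AbcPExp K e P := by
  constructor
  · intro h ε hε
    obtain ⟨C, hC⟩ := h ε hε
    refine ⟨C, fun x hx hsum h0 => ?_⟩
    obtain ⟨t, ht, s, hs, e⟩ := exists_triple h0 hsum
    have a := hC t ht ((hQ t).mpr (by rw [e]; exact hP x s hs hx))
    rw [← height_vec ht, ← rad_vec ht, e, radP_smul hs] at a
    unfold heightP at a ⊢
    rwa [Height.mulHeight_smul_eq_mulHeight x hs] at a
  · intro h ε hε
    obtain ⟨C, hC⟩ := h ε hε
    refine ⟨C, fun t ht hq => ?_⟩
    have hne : ∀ a : 𝓞 K, a ≠ 0 → (a : K) ≠ 0 := fun a ha h3 =>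
      ha (RingOfIntegers.coe_eq_zero_iff.1 h3)
    have a := hC (vecK t) ((hQ t).mp hq) (by
      show algebraMap (𝓞 K) K t.1 + algebraMap (𝓞 K) K t.2.1 + algebraMap (𝓞 K) K t.2.2 = 0
      rw [← map_add, ← map_add, ht.sum, map_zero]) (by
      intro i
      have hn := ht.ne
      fin_cases i
      · exact hne _ (left_ne_zero_of_mul (left_ne_zero_of_mul hn))
      · exact hne _ (right_ne_zero_of_mul (left_ne_zero_of_mul hn))
      · exact hne _ (right_ne_zero_of_mul hn))
    rwa [height_vec ht, rad_vec ht] at a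

lemma exp_one (K : Type) [Field K] [NumberField K] (T : 𝓞 K × 𝓞 K × 𝓞 K → Prop) :
    AbcExp K 1 T ↔ Abc K T := by
  unfold AbcExp Abc
  simp only [Real.rpow_one]

lemma expP_one (K : Type) [Field K] [NumberField K] (T : (Fin 3 → K) → Prop) :
    AbcPExp K 1 T ↔ AbcP K T := by
  unfold AbcPExp AbcP
  simp only [Real.rpow_one]

lemma one_le_heightP (x : Fin 3 → K) : 1 ≤ heightP x := Height.one_le_mulHeight x

/-- a larger exponent is better -/
lemma expP_mono {e e' : ℝ} (h : e ≤ e') {T : (Fin 3 → K) → Prop} (h2 : AbcPExp K e' T) :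
    AbcPExp K e T := by
  intro ε hε
  obtain ⟨C, hC⟩ := h2 ε hε
  refine ⟨C, fun x hx hs h0 => le_trans ?_ (hC x hx hs h0)⟩
  exact Real.rpow_le_rpow_of_exponent_le (one_le_heightP x) h

open Pool.Agent.Helper8.RC Pool.Agent.Q245.Vk Pool.Agent.Q245.Vl Height

omit [NumberField K] in
lemma deg_eq (P Q : K[X]) : deg P Q = dg P Q := rfl

omit [NumberField K] in
lemma points_eq (P Q : K[X]) : points P Q = pts P Q := by
  classical
  unfold points pts AtInf
  congr 1
  by_cases h : P.natDegree = Q.natDegree ∧ (P + Q).natDegree = P.natDegree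
  · rw [if_pos h, if_neg (not_not.2 h)]
  · rw [if_neg h, if_pos h]

/-- from the inequality for the quotients to the inequality for the vectors -/
lemma vec_of (e : ℝ) (he : 0 < e) (T : (Fin 3 → K) → Prop) (T0 : K → Prop)
    (h1 : ∀ x : Fin 3 → K, (∀ i, x i ≠ 0) → x 0 + x 1 + x 2 = 0 → T x → T0 (-x 0 / x 1))
    (h : ∀ ε : ℝ, 0 < ε → ∃ C : ℝ, ∀ z : K, T0 z →
      (e - ε) * logHeight₁ z ≤ ∑ᶠ v ∈ S0 z, lN v + C) : AbcPExp K e T := by
  intro ε hε
  have hpos : 0 < 1 + ε := by linarith
  obtain ⟨C, hC⟩ := h (e * ε / (1 + ε)) (by positivity)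
  refine ⟨Real.exp ((1 + ε) * C + e * (Module.finrank ℚ K * Real.log 2)), fun x hx hs h0 => ?_⟩
  have b := tri_height x hs h0
  have c : 0 < radP x ∧ Real.log (radP x) = ∑ᶠ v ∈ S0 (-x 0 / x 1), lN v := RD_eq x hs h0
  have a := hC (-x 0 / x 1) (h1 x h0 hs hx)
  have e2 : e - e * ε / (1 + ε) = e / (1 + ε) := by field_simp; ring
  rw [e2, div_mul_eq_mul_div, div_le_iff₀ hpos, ← c.2] at a
  have hR := Real.rpow_pos_of_pos c.1 (1 + ε)
  have hH : 0 < heightP x := lt_of_lt_of_le one_pos (one_le_heightP x)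
  have hHe : 0 < heightP x ^ e := Real.rpow_pos_of_pos hH e
  rw [← Real.log_le_log_iff hHe (by positivity), Real.log_mul (Real.exp_pos _).ne' hR.ne',
    Real.log_exp, Real.log_rpow c.1, Real.log_rpow hH]
  have b' : Real.log (heightP x) ≤ logHeight₁ (-x 0 / x 1) + Module.finrank ℚ K * Real.log 2 := b.2
  have b2 := mul_le_mul_of_nonneg_left b' he.le
  linarith

section ext

variable (F K : Type) [Field F] [NumberField F] [Field K] [NumberField K] [Algebra F K]

lemma general (h : AbcP F (fun _ => True)) (P Q : K[X]) (hPQ : IsCoprime P Q)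
    (hd : 1 ≤ deg P Q) : AbcPExp K (((points P Q : ℝ) - 2) / deg P Q) (OnCurve F P Q) := by
  have hF : F0 F (fun _ => True) :=
    (ABC_iff F (fun _ => True) (fun _ => True) (fun _ _ _ _ => trivial) (fun _ _ _ => trivial)).1 h
  have hg := pts_ge hPQ hd
  have hpos : (0 : ℝ) < ((points P Q : ℝ) - 2) / deg P Q := by
    rw [points_eq, deg_eq]
    have h1 : ((dg P Q : ℕ) : ℝ) + 2 ≤ pts P Q := by exact_mod_cast hg
    have h2 : (1 : ℝ) ≤ dg P Q := by exact_mod_cast hd
    apply div_pos <;> linarith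
  refine vec_of _ hpos _ (fun z => ∃ s : F, P.eval (algebraMap F K s) ≠ 0 ∧
    Q.eval (algebraMap F K s) ≠ 0 ∧ (P + Q).eval (algebraMap F K s) ≠ 0 ∧
    z = -P.eval (algebraMap F K s) / Q.eval (algebraMap F K s)) ?_ ?_
  · rintro x h0 hs ⟨s, hx⟩
    obtain ⟨U, V, hUV⟩ := hPQ
    have hUV' : U.eval (algebraMap F K s) * P.eval (algebraMap F K s) +
        V.eval (algebraMap F K s) * Q.eval (algebraMap F K s) = 1 := by
      rw [← eval_mul, ← eval_mul, ← eval_add, hUV, eval_one]
    have hx0 := h0 0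
    have hx1 := h0 1
    have hx2 := h0 2
    have hQ : Q.eval (algebraMap F K s) ≠ 0 := by
      intro hq
      rw [hq, mul_zero] at hx
      have hp : P.eval (algebraMap F K s) = 0 := by
        rcases mul_eq_zero.1 hx.symm with h | h
        · exact absurd h hx1
        · exact h
      rw [hq, hp, mul_zero, mul_zero, add_zero] at hUV'
      exact zero_ne_one hUV'
    have hP : P.eval (algebraMap F K s) ≠ 0 := by
      intro hp
      rw [hp, mul_zero] at hx
      exact mul_ne_zero hx0 hQ hx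
    refine ⟨s, hP, hQ, ?_, ?_⟩
    · rw [eval_add]
      intro h3
      have h4 : x 2 * Q.eval (algebraMap F K s) = 0 := by
        have e : x 2 = -(x 0 + x 1) := by linear_combination hs
        rw [e]
        linear_combination -hx - x 1 * h3
      exact mul_ne_zero hx2 hQ h4
    · field_simp
      linear_combination -hx
  · intro ε hε
    obtain ⟨C, hC⟩ := on_curve F K hF P Q hPQ hd ε hε
    refine ⟨C, ?_⟩
    rintro z ⟨s, h1, h2, h3, rfl⟩
    rw [points_eq, deg_eq]
    exact hC s h1 h2 h3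

/-- the line of the rational triples -/
lemma converse (h : AbcP K (OnCurve F (X : K[X]) 1)) : AbcP F (fun _ => True) := by
  have h2 : F0 K (fun z => ∃ s : F, algebraMap F K s = z) := by
    refine (ABC_iff K (OnCurve F (X : K[X]) 1) _ ?_ ?_).1 h
    · rintro x h0 hs ⟨s, hx⟩
      refine ⟨-s, ?_⟩
      rw [eval_one, eval_X, mul_one] at hx
      have := h0 1
      rw [hx, map_neg]
      field_simp
    · rintro z hz ⟨s, rfl⟩
      refine ⟨-s, ?_⟩
      rw [eval_one, eval_X, mul_one, map_neg]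
      simp
  exact (ABC_iff F (fun _ => True) (fun _ => True) (fun _ _ _ _ => trivial)
    (fun _ _ _ => trivial)).2 (of_range F K h2)

end ext

/-- (1) `K = ℚ(√5)`. The inequality of Q1 on all rational curves `a : b = P(s) : Q(s)`, `s` in `ℚ`,
where `P` and `Q` are coprime polynomials over `K` and not both constant, is equivalent to the
classical abc conjecture; and the latter implies `H ^ ((q - 2) / D) ≤ C rad ^ (1 + ε)` on each of
these curves, where `D` is the degree and `q ≥ D + 2` the number of the points with `a b c = 0`.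

(2) The same for every extension `K / F` of number fields, in terms of vectors. -/
theorem result :
    (∀ (K : Type) [Field K] [NumberField K], finrank ℚ K = 2 → (∃ s : K, s ^ 2 = 5) →
      (Abc ℚ (fun _ => True) ↔ ∀ P Q : K[X], IsCoprime P Q → 1 ≤ deg P Q →
        Abc K (fun t => OnCurve ℚ P Q (vecK t))) ∧
      (Abc ℚ (fun _ => True) → ∀ P Q : K[X], IsCoprime P Q → 1 ≤ deg P Q →
        deg P Q + 2 ≤ points P Q ∧
        AbcExp K (((points P Q : ℝ) - 2) / deg P Q) (fun t => OnCurve ℚ P Q (vecK t)))) ∧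
    (∀ (F K : Type) [Field F] [NumberField F] [Field K] [NumberField K] [Algebra F K],
      (AbcP F (fun _ => True) ↔ ∀ P Q : K[X], IsCoprime P Q → 1 ≤ deg P Q →
        AbcP K (OnCurve F P Q)) ∧
      (AbcP F (fun _ => True) → ∀ P Q : K[X], IsCoprime P Q → 1 ≤ deg P Q →
        deg P Q + 2 ≤ points P Q ∧
        AbcPExp K (((points P Q : ℝ) - 2) / deg P Q) (OnCurve F P Q))) := by
  have hge : ∀ (K : Type) [Field K] [NumberField K] (P Q : K[X]), IsCoprime P Q →
      1 ≤ deg P Q → deg P Q + 2 ≤ points P Q := by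
    intro K _ _ P Q hPQ hd
    rw [points_eq]
    exact pts_ge hPQ hd
  have hexp : ∀ (K : Type) [Field K] [NumberField K] (P Q : K[X]), IsCoprime P Q →
      1 ≤ deg P Q → (1 : ℝ) ≤ ((points P Q : ℝ) - 2) / deg P Q := by
    intro K _ _ P Q hPQ hd
    have h1 : ((deg P Q : ℕ) : ℝ) + 2 ≤ points P Q := by exact_mod_cast hge K P Q hPQ hd
    have h2 : (0 : ℝ) < deg P Q := by exact_mod_cast hd
    rw [le_div_iff₀ h2]
    linarith
  have hstrong : ∀ (F K : Type) [Field F] [NumberField F] [Field K] [NumberField K]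
      [Algebra F K], (AbcP F (fun _ => True) ↔ ∀ P Q : K[X], IsCoprime P Q → 1 ≤ deg P Q →
        AbcP K (OnCurve F P Q)) ∧
      (AbcP F (fun _ => True) → ∀ P Q : K[X], IsCoprime P Q → 1 ≤ deg P Q →
        deg P Q + 2 ≤ points P Q ∧
        AbcPExp K (((points P Q : ℝ) - 2) / deg P Q) (OnCurve F P Q)) := by
    intro F K _ _ _ _ _
    refine ⟨⟨fun h P Q hPQ hd => ?_, fun h => ?_⟩, fun h P Q hPQ hd =>
      ⟨hge K P Q hPQ hd, general F K h P Q hPQ hd⟩⟩
    · exact (expP_one K _).1 (expP_mono (hexp K P Q hPQ hd) (general F K h P Q hPQ hd))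
    · exact converse F K (h X 1 isCoprime_one_right (by
        unfold deg
        rw [natDegree_X]
        exact le_max_left _ _))
  refine ⟨?_, hstrong⟩
  rintro K _ _ hK ⟨s, hs⟩
  have hpid := Pool.Agent.Y382.Gold.pid hK hs
  have hpidQ : IsPrincipalIdealRing (𝓞 ℚ) :=
    IsPrincipalIdealRing.of_surjective (Rat.ringOfIntegersEquiv.symm : ℤ →+* 𝓞 ℚ)
      Rat.ringOfIntegersEquiv.symm.surjective
  obtain ⟨h1, h2⟩ := hstrong ℚ K
  have hQ : Abc ℚ (fun _ => True) ↔ AbcP ℚ (fun _ => True) := by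
    rw [← exp_one, ← expP_one]
    exact pid_exp ℚ 1 _ _ (fun _ => Iff.rfl) (fun _ _ _ _ => trivial)
  have hK2 : ∀ (e : ℝ) (P Q : K[X]), AbcExp K e (fun t => OnCurve ℚ P Q (vecK t)) ↔
      AbcPExp K e (OnCurve ℚ P Q) := by
    intro e P Q
    refine pid_exp K e _ _ (fun _ => Iff.rfl) ?_
    rintro x c _ ⟨r, hr⟩
    refine ⟨r, ?_⟩
    simp only [Pi.smul_apply, smul_eq_mul]
    linear_combination c * hr
  constructor
  · rw [hQ, h1]
    refine forall_congr' fun P => forall_congr' fun Q => forall_congr' fun _ =>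
      forall_congr' fun _ => ?_
    rw [← exp_one, ← expP_one, hK2]
  · intro h P Q hPQ hd
    obtain ⟨a, b⟩ := h2 (hQ.1 h) P Q hPQ hd
    exact ⟨a, (hK2 _ P Q).2 b⟩

end Pool.Agent.Results.MP_2a5a28_nt.RationalCurves
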