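import Pool.Agent.Helper80.VO.Core

/-!
# The abc conjecture over `ℤ[(1 + √5) / 2]`: triples of quality at least one in every open set

`K` is a real quadratic field, for instance `ℚ(√5)`. A triple `a + b + c = 0` in lowest terms of integers of `K` is given,
up to units, by its ratio `a / c`, whose two conjugates are a point of the plane. The abc conjecture says that for each
`ε > 0` the inequality `H ≤ rad ^ (1 + ε)` has finitely many exceptions up to units. We show that `ε` is needed in every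
open set of the plane: for each `κ > 0` every nonempty open set contains infinitely many points which come from triples
with `rad < κ H`, even from triples two members of which are composed of prime factors of a fixed integer. For all points
of the plane outside a meagre set (but, as the library shows, for almost no point in the sense of measure, if `ψ(H)` is
`H ^ (-s)`, `s > 10 / 37`) there are infinitely many such triples whose points are closer than `ψ(H)`, where `ψ` is any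
positive function.

The proof: the `e`-th powers of the elements `3 ^ a 7 ^ b (β / β') ^ c u ^ d` of `K`, where `β = 1 + 42 √D`, `β'` is its
conjugate and `u` is a unit of norm one, are dense in the quadrant of the positive pairs, since `log 3` and `log 7`, and
`log |β / β'|` and `log |u|`, are linearly independent over the rational numbers. If `e` is a multiple of the order of the
group of the residues prime to two modulo `2 ^ k`, they are congruent to one modulo `2 ^ k`.
-/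

set_option autoImplicit false

open NumberField IsDedekindDomain Module Filter Topology

namespace Pool.Agent.Results.MP_2a5a28_nt.ViolatorsInOpenSets

open Pool.Agent.Helper80.VO

section defs
variable {K : Type} [Field K] [NumberField K]

/-- the triples in lowest terms with `a + b + c = 0` and `abc ≠ 0` -/
structure Triple (t : 𝓞 K × 𝓞 K × 𝓞 K) : Prop where
  sum : t.1 + t.2.1 + t.2.2 = 0
  ne : t.1 * t.2.1 * t.2.2 ≠ 0
  cop : Ideal.span {t.1, t.2.1, t.2.2} = (⊤ : Ideal (𝓞 K))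

/-- the height `H(a, b, c)`: the product over the field embeddings `φ : K → ℂ` (two real ones if `K` is a real quadratic
field) of `max (|φ a|, |φ b|, |φ c|)` -/
noncomputable def height (t : 𝓞 K × 𝓞 K × 𝓞 K) : ℝ :=
  ∏ φ : K →+* ℂ, max ‖φ t.1‖ (max ‖φ t.2.1‖ ‖φ t.2.2‖)

/-- the radical: the product of the norms of the prime ideals dividing `abc` -/
noncomputable def rad (t : 𝓞 K × 𝓞 K × 𝓞 K) : ℝ :=
  ∏ᶠ (P : HeightOneSpectrum (𝓞 K)) (_ : t.1 * t.2.1 * t.2.2 ∈ P.asIdeal),
    (Ideal.absNorm P.asIdeal : ℝ)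

/-- the ratio `a / c` of the triple `(a, b, c)` -/
noncomputable def ratio (t : 𝓞 K × 𝓞 K × 𝓞 K) : K := (t.1 : K) / (t.2.2 : K)

/-- two of the members divide a power of `m`: all their prime factors divide `m` -/
def TwoOf (m : ℕ) (t : 𝓞 K × 𝓞 K × 𝓞 K) : Prop :=
  ∃ n : ℕ, t.1 * t.2.1 ∣ (m : 𝓞 K) ^ n ∨ t.1 * t.2.2 ∣ (m : 𝓞 K) ^ n ∨
    t.2.1 * t.2.2 ∣ (m : 𝓞 K) ^ n

end defs

section aux
variable {K : Type} [Field K] [NumberField K]

/-- a product of norms of different primes which divide `x` -/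
lemma prod_le {x : 𝓞 K} (hx : x ≠ 0) (S : Set (HeightOneSpectrum (𝓞 K)))
    (hS : ∀ P ∈ S, x ∈ P.asIdeal) :
    ∏ᶠ (P : HeightOneSpectrum (𝓞 K)) (_ : P ∈ S), (Ideal.absNorm P.asIdeal : ℝ) ≤
      (Ideal.absNorm (Ideal.span {x}) : ℝ) := by
  have hI : (Ideal.span {x} : Ideal (𝓞 K)) ≠ 0 := by
    rw [Ne, Ideal.zero_eq_bot, Ideal.span_singleton_eq_bot]
    exact hx
  have hfin : S.Finite := (Ideal.finite_factors hI).subset fun P hP =>
    Ideal.dvd_span_singleton.2 (hS P hP)
  rw [finprod_mem_eq_finite_toFinset_prod _ hfin, ← Nat.cast_prod, Nat.cast_le, ← map_prod]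
  have hdvd : ∏ P ∈ hfin.toFinset, P.asIdeal ∣ Ideal.span {x} := by
    refine Finset.prod_dvd_of_coprime ?_ ?_
    · intro P _ Q _ hPQ
      have := P.isMaximal
      have := Q.isMaximal
      exact Ideal.isCoprime_of_isMaximal fun h => hPQ (HeightOneSpectrum.ext h)
    · intro P hP
      exact Ideal.dvd_span_singleton.2 (hS P (hfin.mem_toFinset.1 hP))
  refine Nat.le_of_dvd ?_ (map_dvd Ideal.absNorm hdvd)
  rw [Nat.pos_iff_ne_zero, Ne, Ideal.absNorm_eq_zero_iff]
  exact hI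

lemma absNorm_eq (x : 𝓞 K) :
    (Ideal.absNorm (Ideal.span {x}) : ℝ) = ∏ φ : K →+* ℂ, ‖φ x‖ := by
  have h1 : ((Algebra.norm ℚ (x : K) : ℚ) : ℂ) = ∏ φ : K →+* ℂ, φ x := by
    have h2 := Algebra.norm_eq_prod_embeddings ℚ ℂ (x : K)
    rw [eq_ratCast] at h2
    rw [h2]
    exact (Fintype.prod_equiv (RingHom.equivRatAlgHom K ℂ) _ _ fun φ => rfl).symm
  rw [Ideal.absNorm_span_singleton, ← norm_prod, ← h1, ← Algebra.coe_norm_int]
  rw [Rat.cast_intCast, Complex.norm_intCast, Nat.cast_natAbs, Int.cast_abs]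

/-- the main inequality -/
lemma rad_le {A B : 𝓞 K} (hfin : finrank ℚ K = 2) {m k : ℕ} (hm : 0 < m) (hk : (2 : 𝓞 K) ^ k ∣ A - B)
    (hAB : A ≠ B) (hdv : Dv (m : 𝓞 K) (A * B)) (t : 𝓞 K × 𝓞 K × 𝓞 K)
    (ht : t.1 * t.2.1 * t.2.2 = -(A * B * (B - A)))
    (hmax : ∀ φ : K →+* ℂ, ‖φ ((B - A : 𝓞 K) : K)‖ ≤ max ‖φ t.1‖ (max ‖φ t.2.1‖ ‖φ t.2.2‖)) :
    rad t ≤ (2 * m / 2 ^ k) ^ 2 * height t := by
  obtain ⟨w, hw⟩ := hk
  have hBA : B - A = 2 ^ k * (-w) := by
    rw [mul_neg, ← hw]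
    ring
  have hw0 : -w ≠ 0 := by
    intro h
    rw [h, mul_zero] at hBA
    exact hAB (sub_eq_zero.1 hBA).symm
  have hx : (2 * m * (-w) : 𝓞 K) ≠ 0 :=
    mul_ne_zero (mul_ne_zero two_ne_zero (by exact_mod_cast hm.ne')) hw0
  have h1 : rad t ≤ (Ideal.absNorm (Ideal.span {(2 * m * (-w) : 𝓞 K)}) : ℝ) := by
    refine prod_le hx {P | t.1 * t.2.1 * t.2.2 ∈ P.asIdeal} ?_
    intro P hP
    have hP' : t.1 * t.2.1 * t.2.2 ∈ P.asIdeal := hP
    rw [ht, neg_mem_iff] at hP'
    rcases P.isPrime.mem_or_mem hP' with h2 | h2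
    · obtain ⟨N, hN⟩ := hdv
      have h3 : (m : 𝓞 K) ^ N ∈ P.asIdeal := Ideal.mem_of_dvd _ hN h2
      have h4 := P.isPrime.mem_of_pow_mem _ h3
      have h5 : (2 * m * (-w) : 𝓞 K) = (2 * (-w)) * m := by ring
      rw [h5]
      exact Ideal.mul_mem_left _ _ h4
    · rw [hBA] at h2
      rcases P.isPrime.mem_or_mem h2 with h3 | h3
      · have h4 := P.isPrime.mem_of_pow_mem _ h3
        have h5 : (2 * m * (-w) : 𝓞 K) = (m * (-w)) * 2 := by ring
        rw [h5]
        exact Ideal.mul_mem_left _ _ h4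
      · exact Ideal.mul_mem_left _ _ h3
  refine h1.trans ?_
  rw [absNorm_eq, height]
  have hcard : Fintype.card (K →+* ℂ) = 2 := by
    rw [NumberField.Embeddings.card, hfin]
  have h2 : (2 * (m : ℝ) / 2 ^ k) ^ 2 = ∏ _φ : K →+* ℂ, (2 * (m : ℝ) / 2 ^ k) := by
    rw [Finset.prod_const, Finset.card_univ, hcard]
  rw [h2, ← Finset.prod_mul_distrib]
  refine Finset.prod_le_prod (fun _ _ => norm_nonneg _) fun φ _ => ?_
  refine le_trans (le_of_eq ?_) (mul_le_mul_of_nonneg_left (hmax φ) (by positivity))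
  rw [hBA]
  push_cast
  simp only [map_mul, map_neg, map_pow, map_ofNat, map_natCast, norm_mul, norm_neg, norm_pow,
    Complex.norm_ofNat, Complex.norm_natCast]
  field_simp

lemma height_pos {t : 𝓞 K × 𝓞 K × 𝓞 K} (ht : Triple t) : 0 < height t := by
  refine Finset.prod_pos fun φ _ => ?_
  have h1 : t.1 ≠ 0 := left_ne_zero_of_mul (left_ne_zero_of_mul ht.ne)
  have h2 : φ (t.1 : K) ≠ 0 := by
    rw [Ne, map_eq_zero]
    exact fun h => h1 (RingOfIntegers.ext h)
  exact lt_max_of_lt_left (norm_pos_iff.2 h2)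

/-- triples in open sets, general position -/
lemma violator {D : ℕ} (hD : ¬ IsSquare D) (hfin : finrank ℚ K = 2) {s : 𝓞 K} (hs : s ^ 2 = D)
    {σ₁ σ₂ : K →+* ℝ} (hσ : σ₂ s = -σ₁ s) {κ : ℝ} (hκ : 0 < κ) {U : Set (ℝ × ℝ)}
    (hU : IsOpen U) (F : ℝ → ℝ) (y : ℝ × ℝ) (hy1 : 0 < y.1) (hy2 : 0 < y.2) (hy : y.1 ≠ 1)
    (hF1 : ContinuousAt F y.1) (hF2 : ContinuousAt F y.2) (hyU : (F y.1, F y.2) ∈ U)
    (T : 𝓞 K → 𝓞 K → 𝓞 K × 𝓞 K × 𝓞 K)
    (hTsum : ∀ A B, (T A B).1 + (T A B).2.1 + (T A B).2.2 = 0)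
    (hTprod : ∀ A B, (T A B).1 * (T A B).2.1 * (T A B).2.2 = -(A * B * (B - A)))
    (hTcop : ∀ A B, IsCoprime A B → Ideal.span {(T A B).1, (T A B).2.1, (T A B).2.2} = ⊤)
    (hTmax : ∀ A B, ∀ φ : K →+* ℂ, ‖φ ((B - A : 𝓞 K) : K)‖ ≤
      max ‖φ (T A B).1‖ (max ‖φ (T A B).2.1‖ ‖φ (T A B).2.2‖))
    (hTtwo : ∀ A B, ∀ m : ℕ, Dv (m : 𝓞 K) (A * B) → TwoOf m (T A B))
    (hTF : ∀ A B : 𝓞 K, B ≠ 0 → A ≠ B → ∀ σ : K →+* ℝ, σ (ratio (T A B)) = F (σ A / σ B)) :
    ∃ t : 𝓞 K × 𝓞 K × 𝓞 K, Triple t ∧ (σ₁ (ratio t), σ₂ (ratio t)) ∈ U ∧ TwoOf (mm D) t ∧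
      rad t < κ * height t := by
  have hD0 : 0 < D := by
    rcases Nat.eq_zero_or_pos D with h | h
    · exact absurd (h ▸ (⟨0, rfl⟩ : IsSquare 0)) hD
    · exact h
  have hm : 0 < mm D := by
    unfold mm
    omega
  -- the exponent
  obtain ⟨k, hk⟩ : ∃ k : ℕ, (2 * (mm D : ℝ) / 2 ^ k) ^ 2 < κ := by
    have h1 : Tendsto (fun k : ℕ => (2 * (mm D : ℝ) / 2 ^ k) ^ 2) atTop (𝓝 0) := by
      have h2 : Tendsto (fun k : ℕ => 2 * (mm D : ℝ) * ((1 / 2 : ℝ) ^ k)) atTop
          (𝓝 (2 * (mm D : ℝ) * 0)) :=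
        (tendsto_pow_atTop_nhds_zero_of_lt_one (by norm_num) (by norm_num)).const_mul _
      have h3 := h2.pow 2
      rw [mul_zero, zero_pow two_ne_zero] at h3
      refine h3.congr fun k => ?_
      rw [one_div, inv_pow, div_eq_mul_inv]
    exact (h1.eventually (gt_mem_nhds hκ)).exists
  have hN : {w : ℝ × ℝ | (F w.1, F w.2) ∈ U ∧ w.1 ≠ 1} ∈ 𝓝 y := by
    have h1 : ContinuousAt (fun w : ℝ × ℝ => (F w.1, F w.2)) y :=
      (hF1.comp continuousAt_fst).prodMk (hF2.comp continuousAt_snd)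
    have h2 := h1.preimage_mem_nhds (hU.mem_nhds hyU)
    have h3 : {w : ℝ × ℝ | w.1 ≠ 1} ∈ 𝓝 y :=
      (isOpen_ne.preimage continuous_fst).mem_nhds hy
    exact Filter.inter_mem h2 h3
  obtain ⟨V, hVN, hV, hyV⟩ := mem_nhds_iff.1 hN
  obtain ⟨A, B, hA, hB, hcop, hdiv, hdv, hmem⟩ := core hD s hs hσ k V hV y hyV hy1 hy2
  obtain ⟨hmU, hne⟩ := hVN hmem
  have hσB : σ₁ (B : K) ≠ 0 := by
    rw [Ne, map_eq_zero]
    exact fun h => hB (RingOfIntegers.ext h)
  have hAB : A ≠ B := by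
    rintro rfl
    exact hne (div_self hσB)
  have hT : Triple (T A B) := by
    refine ⟨hTsum A B, ?_, hTcop A B hcop⟩
    rw [hTprod]
    exact neg_ne_zero.2 (mul_ne_zero (mul_ne_zero hA hB) (sub_ne_zero.2 hAB.symm))
  refine ⟨T A B, hT, ?_, hTtwo A B _ hdv, ?_⟩
  · rw [hTF A B hB hAB, hTF A B hB hAB]
    exact hmU
  · refine (rad_le hfin hm hdiv hAB hdv (T A B) (hTprod A B) (hTmax A B)).trans_lt ?_
    exact mul_lt_mul_of_pos_right hk (height_pos hT)

/-- triples in open sets -/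
lemma exists_violator {D : ℕ} (hD : ¬ IsSquare D) (hfin : finrank ℚ K = 2) {s : 𝓞 K}
    (hs : s ^ 2 = D) {σ₁ σ₂ : K →+* ℝ} (hσ : σ₂ s = -σ₁ s) {κ : ℝ} (hκ : 0 < κ)
    {U : Set (ℝ × ℝ)} (hU : IsOpen U) (hne : U.Nonempty) :
    ∃ t : 𝓞 K × 𝓞 K × 𝓞 K, Triple t ∧ (σ₁ (ratio t), σ₂ (ratio t)) ∈ U ∧ TwoOf (mm D) t ∧
      rad t < κ * height t := by
  obtain ⟨z, hzU, hz1, hz2⟩ : ∃ z ∈ U, z.1 ∈ ({0, -1}ᶜ : Set ℝ) ∧ z.2 ∈ ({0, -1}ᶜ : Set ℝ) := by
    have h1 : Dense ({0, -1}ᶜ : Set ℝ) := (Set.toFinite _).countable.dense_compl ℝ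
    obtain ⟨z, hz, hz'⟩ := (h1.prod h1).inter_open_nonempty U hU hne
    exact ⟨z, hz, hz'.1, hz'.2⟩
  simp only [Set.mem_compl_iff, Set.mem_insert_iff, Set.mem_singleton_iff, not_or] at hz1 hz2
  have n0 : ∀ {w : 𝓞 K}, w ≠ 0 → ∀ σ : K →+* ℝ, σ (w : K) ≠ 0 := fun hw σ => by
    rw [Ne, map_eq_zero]
    exact fun h => hw (RingOfIntegers.ext h)
  by_cases hc1 : z.1 < 0 ∧ z.2 < 0
  · refine violator hD hfin hs hσ hκ hU (fun w => -w) (-z.1, -z.2) (by simp only; linarith)
      (by simp only; linarith) ?_ (by fun_prop) (by fun_prop) ?_ (fun A B => (A, B - A, -B))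
      (fun A B => by ring) (fun A B => by ring) ?_ ?_ ?_ ?_
    · intro h
      exact hz1.2 (by simp only at h; linarith)
    · simpa using hzU
    · intro A B hAB
      obtain ⟨a, b, hab⟩ := hAB
      rw [Ideal.eq_top_iff_one, ← hab]
      have hA : A ∈ (Ideal.span {A, B - A, -B} : Ideal (𝓞 K)) := Ideal.subset_span (by simp)
      have hB : -B ∈ (Ideal.span {A, B - A, -B} : Ideal (𝓞 K)) := Ideal.subset_span (by simp)
      exact add_mem (Ideal.mul_mem_left _ _ hA) (Ideal.mul_mem_left _ _ (neg_mem_iff.1 hB))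
    · intro A B φ
      exact le_max_of_le_right (le_max_left _ _)
    · rintro A B m ⟨N, hN⟩
      refine ⟨N, Or.inr (Or.inl ?_)⟩
      show A * -B ∣ _
      rw [mul_neg]
      exact (neg_dvd).2 hN
    · intro A B hB hAB σ
      show σ ((A : K) / ((-B : 𝓞 K) : K)) = -(σ A / σ B)
      rw [map_div₀]
      push_cast
      rw [map_neg, div_neg]
  · by_cases hc2 : -1 < z.1 ∧ -1 < z.2
    · refine violator hD hfin hs hσ hκ hU (fun w => w - 1) (z.1 + 1, z.2 + 1)
        (by simp only; linarith) (by simp only; linarith) ?_ (by fun_prop) (by fun_prop) ?_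
        (fun A B => (B - A, A, -B)) (fun A B => by ring) (fun A B => by ring) ?_ ?_ ?_ ?_
      · intro h
        exact hz1.1 (by simp only at h; linarith)
      · simpa using hzU
      · intro A B hAB
        obtain ⟨a, b, hab⟩ := hAB
        rw [Ideal.eq_top_iff_one, ← hab]
        have hA : A ∈ (Ideal.span {B - A, A, -B} : Ideal (𝓞 K)) := Ideal.subset_span (by simp)
        have hB : -B ∈ (Ideal.span {B - A, A, -B} : Ideal (𝓞 K)) := Ideal.subset_span (by simp)
        exact add_mem (Ideal.mul_mem_left _ _ hA) (Ideal.mul_mem_left _ _ (neg_mem_iff.1 hB))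
      · intro A B φ
        exact le_max_left _ _
      · rintro A B m ⟨N, hN⟩
        refine ⟨N, Or.inr (Or.inr ?_)⟩
        show A * -B ∣ _
        rw [mul_neg]
        exact (neg_dvd).2 hN
      · intro A B hB hAB σ
        show σ (((B - A : 𝓞 K) : K) / ((-B : 𝓞 K) : K)) = σ A / σ B - 1
        have h1 := n0 hB σ
        rw [map_div₀]
        push_cast
        rw [map_neg, map_sub]
        field_simp
        ring
    · have hz1' : z.1 < -1 ∨ 0 < z.1 := by
        rcases lt_trichotomy z.1 (-1) with h | h | h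
        · exact Or.inl h
        · exact absurd h hz1.2
        · right
          rcases lt_trichotomy z.1 0 with h' | h' | h'
          · exfalso
            have h3 : ¬ z.2 < 0 := fun h4 => hc1 ⟨h', h4⟩
            exact hc2 ⟨h, by linarith⟩
          · exact absurd h' hz1.1
          · exact h'
      have hz2' : z.2 < -1 ∨ 0 < z.2 := by
        rcases lt_trichotomy z.2 (-1) with h | h | h
        · exact Or.inl h
        · exact absurd h hz2.2
        · right
          rcases lt_trichotomy z.2 0 with h' | h' | h'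
          · exfalso
            have h3 : ¬ z.1 < 0 := fun h4 => hc1 ⟨h4, h'⟩
            exact hc2 ⟨by linarith, h⟩
          · exact absurd h' hz2.1
          · exact h'
      have pos : ∀ x : ℝ, x < -1 ∨ 0 < x → 0 < x / (1 + x) := by
        rintro x (h | h)
        · exact div_pos_of_neg_of_neg (by linarith) (by linarith)
        · exact div_pos h (by linarith)
      have ne1 : ∀ x : ℝ, x < -1 ∨ 0 < x → 1 + x ≠ 0 := by
        rintro x (h | h)
        · linarith
        · linarith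
      have key : ∀ x : ℝ, x < -1 ∨ 0 < x → 1 - x / (1 + x) ≠ 0 ∧
          (x / (1 + x)) / (1 - x / (1 + x)) = x := by
        intro x hx
        have h1 := ne1 x hx
        have h2 : 1 - x / (1 + x) = 1 / (1 + x) := by
          field_simp
          ring
        rw [h2]
        exact ⟨one_div_ne_zero h1, by field_simp⟩
      refine violator hD hfin hs hσ hκ hU (fun w => w / (1 - w)) (z.1 / (1 + z.1), z.2 / (1 + z.2))
        (pos _ hz1') (pos _ hz2') ?_ ?_ ?_ ?_ (fun A B => (A, -B, B - A)) (fun A B => by ring)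
        (fun A B => by ring) ?_ ?_ ?_ ?_
      · intro h
        exact (key _ hz1').1 (by simp only at h; rw [h, sub_self])
      · exact continuousAt_id.div (continuousAt_const.sub continuousAt_id) (key _ hz1').1
      · exact continuousAt_id.div (continuousAt_const.sub continuousAt_id) (key _ hz2').1
      · simp only
        rw [(key _ hz1').2, (key _ hz2').2]
        exact hzU
      · intro A B hAB
        obtain ⟨a, b, hab⟩ := hAB
        rw [Ideal.eq_top_iff_one, ← hab]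
        have hA : A ∈ (Ideal.span {A, -B, B - A} : Ideal (𝓞 K)) := Ideal.subset_span (by simp)
        have hB : -B ∈ (Ideal.span {A, -B, B - A} : Ideal (𝓞 K)) := Ideal.subset_span (by simp)
        exact add_mem (Ideal.mul_mem_left _ _ hA) (Ideal.mul_mem_left _ _ (neg_mem_iff.1 hB))
      · intro A B φ
        exact le_max_of_le_right (le_max_right _ _)
      · rintro A B m ⟨N, hN⟩
        refine ⟨N, Or.inl ?_⟩
        show A * -B ∣ _
        rw [mul_neg]
        exact (neg_dvd).2 hN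
      · intro A B hB hAB σ
        show σ ((A : K) / ((B - A : 𝓞 K) : K)) = σ A / σ B / (1 - σ A / σ B)
        have h1 := n0 hB σ
        have h2 : σ (B : K) - σ (A : K) ≠ 0 := by
          have h3 := n0 (sub_ne_zero.2 hAB.symm) σ
          push_cast at h3
          rwa [map_sub] at h3
        rw [map_div₀]
        push_cast
        rw [map_sub]
        field_simp

end aux

/-- Let `D` be a natural number which is not a square, for instance `D = 5`. There is `m ≥ 1` with the following property.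
Let `K = ℚ(√D)`, with the two real embeddings `σ₁`, `σ₂`.

(1) For each `κ > 0` every nonempty open set `U` of the plane contains the points `(σ₁ r, σ₂ r)` for infinitely many
ratios `r = a / c` of triples `a + b + c = 0`, `abc ≠ 0`, in lowest terms of integers of `K` with `rad < κ H` such that two of
the numbers `a, b, c` divide a power of `m`.

(2) Let `ψ` be any positive function. All points `z = (z₁, z₂)` of the plane outside a meagre set have the following
property: for each `κ > 0` there are infinitely many ratios `r` of such triples with `rad < κ H` and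
`|σ_i r - z_i| < ψ(H)` for `i = 1, 2`. -/
theorem result : ∀ D : ℕ, ¬ IsSquare D → ∃ m : ℕ, 0 < m ∧
    ∀ (K : Type) [Field K] [NumberField K], finrank ℚ K = 2 → (∃ s : K, s ^ 2 = D) →
    ∀ σ₁ σ₂ : K →+* ℝ, σ₁ ≠ σ₂ →
      (∀ κ : ℝ, 0 < κ → ∀ U : Set (ℝ × ℝ), IsOpen U → U.Nonempty →
        {r : K | (σ₁ r, σ₂ r) ∈ U ∧ ∃ t : 𝓞 K × 𝓞 K × 𝓞 K, Triple t ∧ ratio t = r ∧ TwoOf m t ∧
          rad t < κ * height t}.Infinite) ∧
      (∀ ψ : ℝ → ℝ, (∀ x, 0 < ψ x) → ∀ᶠ z in residual (ℝ × ℝ), ∀ κ : ℝ, 0 < κ →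
        {r : K | ∃ t : 𝓞 K × 𝓞 K × 𝓞 K, Triple t ∧ ratio t = r ∧ TwoOf m t ∧
          rad t < κ * height t ∧ |σ₁ r - z.1| < ψ (height t) ∧
          |σ₂ r - z.2| < ψ (height t)}.Infinite) := by
  intro D hD
  have hD0 : 0 < D := by
    rcases Nat.eq_zero_or_pos D with h | h
    · exact absurd (h ▸ (⟨0, rfl⟩ : IsSquare 0)) hD
    · exact h
  refine ⟨mm D, by unfold mm; omega, ?_⟩
  intro K _ _ hfin hs0 σ₁ σ₂ hσ12
  obtain ⟨s₀, hs₀⟩ := hs0
  have hint : IsIntegral ℤ s₀ := by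
    refine IsIntegral.of_pow (n := 2) two_pos ?_
    have h1 : s₀ ^ 2 = algebraMap ℤ K (D : ℤ) := by
      rw [hs₀]
      simp
    rw [h1]
    exact isIntegral_algebraMap
  let s : 𝓞 K := ⟨s₀, hint⟩
  have hs : s ^ 2 = (D : 𝓞 K) := by
    apply RingOfIntegers.ext
    push_cast
    exact hs₀
  have hσ : σ₂ (s : K) = -σ₁ (s : K) := conj_eq hD hfin hs₀ hσ12
  have main : ∀ κ : ℝ, 0 < κ → ∀ U : Set (ℝ × ℝ), IsOpen U → U.Nonempty →
      ∀ F : Finset K, ∃ t : 𝓞 K × 𝓞 K × 𝓞 K, Triple t ∧ (σ₁ (ratio t), σ₂ (ratio t)) ∈ U ∧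
        ratio t ∉ F ∧ TwoOf (mm D) t ∧ rad t < κ * height t := by
    intro κ hκ U hU hUne F
    let E : Set (ℝ × ℝ) := (fun r : K => (σ₁ r, σ₂ r)) '' (F : Set K)
    have hE : E.Finite := F.finite_toSet.image _
    obtain ⟨z, hz, hz'⟩ := (hE.countable.dense_compl ℝ).inter_open_nonempty U hU hUne
    obtain ⟨t, ht, htU, htwo, hrad⟩ := exists_violator hD hfin hs hσ hκ
      (hU.inter hE.isClosed.isOpen_compl) ⟨z, hz, hz'⟩
    refine ⟨t, ht, htU.1, ?_, htwo, hrad⟩
    intro hF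
    exact htU.2 ⟨ratio t, hF, rfl⟩
  refine ⟨?_, ?_⟩
  · intro κ hκ U hU hUne hfinite
    obtain ⟨t, ht, htU, htF, htwo, hrad⟩ := main κ hκ U hU hUne hfinite.toFinset
    exact htF (hfinite.mem_toFinset.2 ⟨htU, t, ht, rfl, htwo, hrad⟩)
  · intro ψ hψ
    have hcount : Countable K := by
      have hsur : Function.Surjective (fun v : ℚ × ℚ => (v.1 : K) + v.2 * s₀) := fun x => by
        obtain ⟨p, q, h⟩ := exists_coord hD hfin hs₀ x
        exact ⟨(p, q), h.symm⟩
      exact hsur.countable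
    have hG : ∀ v : ℕ × Finset K, ∀ᶠ z in residual (ℝ × ℝ), ∃ t : 𝓞 K × 𝓞 K × 𝓞 K,
        (Triple t ∧ ratio t ∉ v.2 ∧ TwoOf (mm D) t ∧ rad t < (1 / ((v.1 : ℝ) + 1)) * height t) ∧
          |σ₁ (ratio t) - z.1| < ψ (height t) ∧ |σ₂ (ratio t) - z.2| < ψ (height t) := by
      intro v
      refine residual_of_dense_open ?_ ?_
      · have h1 : {z : ℝ × ℝ | ∃ t : 𝓞 K × 𝓞 K × 𝓞 K,
            (Triple t ∧ ratio t ∉ v.2 ∧ TwoOf (mm D) t ∧
              rad t < (1 / ((v.1 : ℝ) + 1)) * height t) ∧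
            |σ₁ (ratio t) - z.1| < ψ (height t) ∧ |σ₂ (ratio t) - z.2| < ψ (height t)} =
            ⋃ t ∈ {t : 𝓞 K × 𝓞 K × 𝓞 K | Triple t ∧ ratio t ∉ v.2 ∧ TwoOf (mm D) t ∧
              rad t < (1 / ((v.1 : ℝ) + 1)) * height t},
              {z : ℝ × ℝ | |σ₁ (ratio t) - z.1| < ψ (height t) ∧
                |σ₂ (ratio t) - z.2| < ψ (height t)} := by
          ext z
          simp only [Set.mem_ofPred_eq, Set.mem_iUnion, exists_prop]
        rw [h1]
        refine isOpen_biUnion fun t _ => ?_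
        exact (isOpen_lt ((continuous_const.sub continuous_fst).abs) continuous_const).inter
          (isOpen_lt ((continuous_const.sub continuous_snd).abs) continuous_const)
      · rw [dense_iff_inter_open]
        intro U hU hUne
        obtain ⟨t, ht, htU, htF, htwo, hrad⟩ := main (1 / ((v.1 : ℝ) + 1)) (by positivity) U hU
          hUne v.2
        refine ⟨_, htU, t, ⟨ht, htF, htwo, hrad⟩, ?_, ?_⟩
        · simpa using hψ (height t)
        · simpa using hψ (height t)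
    filter_upwards [eventually_countable_forall.2 hG] with z hz κ hκ hfinite
    obtain ⟨n, hn⟩ := exists_nat_one_div_lt hκ
    obtain ⟨t, ⟨ht, htF, htwo, hrad⟩, h1, h2⟩ := hz (n, hfinite.toFinset)
    refine htF (hfinite.mem_toFinset.2 ⟨t, ht, rfl, htwo, ?_, h1, h2⟩)
    exact hrad.trans (mul_lt_mul_of_pos_right hn (height_pos ht))

end Pool.Agent.Results.MP_2a5a28_nt.ViolatorsInOpenSets
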